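import Mathlib

/-!
# Fractional revival on a graph with 66 vertices

The graph `X` has vertices `b = 0`, `a = 1` and four cells `C₀, C₁, C₂, C₃` of sixteen vertices
each, every cell being split into four groups of four.  The vertex `b` is adjacent to `C₀`, the
vertex `a` to `C₁`; two vertices of the cell pairs `(C₀, C₁), (C₁, C₁), (C₂, C₂), (C₃, C₃)` are
adjacent when their groups differ, and two vertices of the cell pairs `(C₀, C₂), (C₁, C₃)` are
adjacent when their groups coincide.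

For a root `r` of `r² = r + 1` the space of functions with values
`f₀, r f₀, f₁, r f₁, f₂, r f₂` on `b, a, C₀, C₁, C₂, C₃` is invariant under the adjacency
matrix, with eigenvalues `4 + 4 r` and `4 + 4 r ± 8 √2`.
-/

namespace Pool.Agent.FR106

open Matrix

/-! ### Definitions -/

section defs
variable {V : Type} [Fintype V] [DecidableEq V]

/-- The transition matrix `U(t) = exp(i t A)` of the continuous-time quantum walk. -/
noncomputable def U (X : SimpleGraph V) [DecidableRel X.Adj] (t : ℝ) : Matrix V V ℂ :=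
  NormedSpace.exp ((Complex.I * (t : ℂ)) • X.adjMatrix ℂ)

/-- The standard basis vector of `v`. -/
def e (v : V) : V → ℂ := Pi.single v 1

/-- Proper fractional revival on `{a, b}`. -/
def ProperFR (X : SimpleGraph V) [DecidableRel X.Adj] (a b : V) : Prop :=
  ∃ (t : ℝ) (α β : ℂ), 0 < t ∧ α ≠ 0 ∧ β ≠ 0 ∧ U X t *ᵥ e a = α • e a + β • e b

/-- The orthogonal projection `E_θ` onto the `θ`-eigenspace of the adjacency matrix (it is zero if
`θ` is not an eigenvalue). -/
noncomputable def E (X : SimpleGraph V) [DecidableRel X.Adj] (θ : ℝ) :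
    EuclideanSpace ℝ V →L[ℝ] EuclideanSpace ℝ V :=
  (Module.End.eigenspace (Matrix.toEuclideanLin (X.adjMatrix ℝ)) θ).starProjection

/-- The entry `(E_θ)_{ab}`. -/
noncomputable def entry (X : SimpleGraph V) [DecidableRel X.Adj] (θ : ℝ) (a b : V) : ℝ :=
  (E X θ (EuclideanSpace.single b 1)) a

end defs

/-! ### The exponential on an eigenvector -/

section exp
variable {n : Type} [Fintype n] [DecidableEq n]

open scoped Matrix.Norms.Operator in
theorem exp_eigen (B : Matrix n n ℂ) (μ : ℂ) (v : n → ℂ) (hv : B *ᵥ v = μ • v) :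
    NormedSpace.exp B *ᵥ v = Complex.exp μ • v := by
  let g : ℝ → n → ℂ := fun s =>
    NormedSpace.exp (s • (-B)) *ᵥ (Complex.exp (s * μ) • v)
  have hder : ∀ s, HasDerivAt g 0 s := by
    intro s
    have h1 : HasDerivAt (fun u : ℝ => NormedSpace.exp (u • (-B)))
        (NormedSpace.exp (s • (-B)) * (-B)) s := hasDerivAt_exp_smul_const (-B) s
    have hlin : HasDerivAt (fun u : ℝ => (u : ℂ) * μ) μ s := by
      simpa using (Complex.ofRealCLM.hasDerivAt (x := s)).mul_const μ
    have hexp : HasDerivAt (fun u : ℝ => Complex.exp ((u : ℂ) * μ))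
        (Complex.exp ((s : ℂ) * μ) * μ) s := hlin.cexp
    rw [hasDerivAt_pi]
    intro i
    have h1' : ∀ j, HasDerivAt (fun u : ℝ => NormedSpace.exp (u • (-B)) i j)
        ((NormedSpace.exp (s • (-B)) * (-B)) i j) s := by
      intro j
      exact (hasDerivAt_pi.1 ((hasDerivAt_pi.1 h1) i)) j
    have h2' : ∀ j, HasDerivAt (fun u : ℝ => (Complex.exp ((u : ℂ) * μ) • v) j)
        (Complex.exp ((s : ℂ) * μ) * μ * v j) s := by
      intro j
      exact hexp.mul_const (v j)
    have h3 : HasDerivAt (fun u : ℝ => ∑ j, NormedSpace.exp (u • (-B)) i j *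
        (Complex.exp ((u : ℂ) * μ) • v) j)
        (∑ j, ((NormedSpace.exp (s • (-B)) * (-B)) i j * (Complex.exp ((s : ℂ) * μ) • v) j +
          NormedSpace.exp (s • (-B)) i j * (Complex.exp ((s : ℂ) * μ) * μ * v j))) s :=
      HasDerivAt.fun_sum fun j _ => (h1' j).mul (h2' j)
    have h4 : (∑ j, ((NormedSpace.exp (s • (-B)) * (-B)) i j *
          (Complex.exp ((s : ℂ) * μ) • v) j +
          NormedSpace.exp (s • (-B)) i j * (Complex.exp ((s : ℂ) * μ) * μ * v j))) = 0 := by
      rw [Finset.sum_add_distrib]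
      have e1 : (∑ j, (NormedSpace.exp (s • (-B)) * (-B)) i j *
          (Complex.exp ((s : ℂ) * μ) • v) j) =
          ((NormedSpace.exp (s • (-B)) * (-B)) *ᵥ (Complex.exp ((s : ℂ) * μ) • v)) i := rfl
      have e2 : (∑ j, NormedSpace.exp (s • (-B)) i j * (Complex.exp ((s : ℂ) * μ) * μ * v j)) =
          (NormedSpace.exp (s • (-B)) *ᵥ ((Complex.exp ((s : ℂ) * μ) * μ) • v)) i := rfl
      rw [e1, e2, ← Matrix.mulVec_mulVec, ← Pi.add_apply, ← Matrix.mulVec_add]
      have e3 : (-B) *ᵥ (Complex.exp ((s : ℂ) * μ) • v) + (Complex.exp ((s : ℂ) * μ) * μ) • v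
          = 0 := by
        rw [Matrix.neg_mulVec, Matrix.mulVec_smul, hv, smul_smul, neg_add_cancel]
      rw [e3, Matrix.mulVec_zero]
      rfl
    rw [h4] at h3
    exact h3
  have hconst : ∀ s, g s = g 0 := by
    intro s
    apply is_const_of_deriv_eq_zero (fun x => (hder x).differentiableAt)
    intro x
    exact (hder x).deriv
  have hg0 : g 0 = v := by
    simp [g]
  have hg1 : g 1 = v := by rw [hconst 1, hg0]
  have hmul : NormedSpace.exp B * NormedSpace.exp (-B) = 1 := by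
    rw [← Matrix.exp_add_of_commute]
    · simp
    · exact (Commute.refl B).neg_right
  calc NormedSpace.exp B *ᵥ v = NormedSpace.exp B *ᵥ g 1 := by rw [hg1]
    _ = Complex.exp μ • v := by
        simp only [g, one_smul, Complex.ofReal_one, one_mul]
        rw [Matrix.mulVec_mulVec, hmul, Matrix.one_mulVec]

end exp

/-! ### The graph -/

/-- The class of a vertex: `b`, `a`, and the four cells. -/
def cls (v : Fin 66) : Fin 6 :=
  if v.val = 0 then 0 else if v.val = 1 then 1 else if v.val < 18 then 2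
  else if v.val < 34 then 3 else if v.val < 50 then 4 else 5

/-- The group of a vertex inside its cell. -/
def grp (v : Fin 66) : ℕ := ((v.val + 14) % 16) / 4

/-- Adjacency type of two classes: `0` none, `1` all, `2` different groups, `3` same group. -/
def rel : Fin 6 → Fin 6 → ℕ :=
  ![![0, 0, 1, 0, 0, 0], ![0, 0, 0, 1, 0, 0], ![1, 0, 0, 2, 3, 0], ![0, 1, 2, 2, 0, 3],
    ![0, 0, 3, 0, 2, 0], ![0, 0, 0, 3, 0, 2]]

/-- Adjacency. -/
def adjB (v w : Fin 66) : Bool :=
  (rel (cls v) (cls w) == 1) || (rel (cls v) (cls w) == 2 && grp v != grp w) ||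
    (rel (cls v) (cls w) == 3 && grp v == grp w)

/-- The graph on `66` vertices. -/
def X : SimpleGraph (Fin 66) where
  Adj v w := adjB v w = true
  symm := ⟨by
    intro v w h
    unfold adjB at h ⊢
    have hr : ∀ c d : Fin 6, rel c d = rel d c := by decide
    rw [hr (cls w) (cls v)]
    simp only [Bool.or_eq_true, Bool.and_eq_true, beq_iff_eq, bne_iff_ne, ne_eq] at h ⊢
    rcases h with (h | ⟨h1, h2⟩) | ⟨h1, h2⟩
    · exact Or.inl (Or.inl h)
    · exact Or.inl (Or.inr ⟨h1, fun h => h2 h.symm⟩)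
    · exact Or.inr ⟨h1, h2.symm⟩⟩
  loopless := ⟨by
    intro v h
    unfold adjB at h
    have hr : ∀ c : Fin 6, rel c c ≠ 1 ∧ rel c c ≠ 3 := by decide
    have := hr (cls v)
    simp only [Bool.or_eq_true, Bool.and_eq_true, beq_iff_eq, bne_iff_ne, ne_eq,
      not_true_eq_false, and_false, or_false, and_true] at h
    rcases h with h | h
    · exact this.1 h
    · exact this.2 h⟩

instance : DecidableRel X.Adj := fun v w => inferInstanceAs (Decidable (adjB v w = true))

/-- The quotient matrix. -/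
def N : Fin 6 → Fin 6 → ℕ :=
  ![![0, 0, 16, 0, 0, 0], ![0, 0, 0, 16, 0, 0], ![1, 0, 0, 12, 4, 0], ![0, 1, 12, 12, 0, 4],
    ![0, 0, 4, 0, 12, 0], ![0, 0, 0, 4, 0, 12]]

theorem count (v : Fin 66) (k : Fin 6) :
    (Finset.univ.filter fun w => adjB v w = true ∧ cls w = k).card = N (cls v) k := by
  revert v k
  decide +kernel

/-- The adjacency matrix acts on class functions through the quotient matrix. -/
theorem mulVec_cls {R : Type} [CommRing R] (g : Fin 6 → R) :
    X.adjMatrix R *ᵥ (fun v => g (cls v)) = fun v => ∑ k, (N (cls v) k : R) * g k := by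
  ext v
  rw [SimpleGraph.adjMatrix_mulVec_apply]
  rw [← Finset.sum_fiberwise (s := X.neighborFinset v) (g := cls)]
  refine Finset.sum_congr rfl fun k _ => ?_
  have h1 : ∑ i ∈ X.neighborFinset v with cls i = k, g (cls i) =
      ∑ i ∈ X.neighborFinset v with cls i = k, g k := by
    refine Finset.sum_congr rfl fun i hi => ?_
    rw [(Finset.mem_filter.1 hi).2]
  rw [h1, Finset.sum_const, nsmul_eq_mul]
  congr 2
  rw [← count v k]
  congr 1
  ext w
  simp only [Finset.mem_filter, SimpleGraph.mem_neighborFinset, Finset.mem_univ, true_and]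
  rfl

/-! ### Eigenvectors -/

section eig
variable {K : Type} [Field K] [CharZero K]

/-- The class function with values `f₀, r f₀, f₁, r f₁, f₂, r f₂`. -/
def lift (r f0 f1 f2 : K) : Fin 6 → K := ![f0, r * f0, f1, r * f1, f2, r * f2]

/-- The corresponding function on the vertices. -/
def fn (r f0 f1 f2 : K) : Fin 66 → K := fun v => lift r f0 f1 f2 (cls v)

theorem mulVec_fn (r f0 f1 f2 : K) (hr : r ^ 2 = r + 1) :
    X.adjMatrix K *ᵥ fn r f0 f1 f2 =
      fn r (16 * f1) (f0 + 12 * r * f1 + 4 * f2) (4 * f1 + 12 * f2) := by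
  unfold fn
  rw [mulVec_cls]
  ext v
  generalize cls v = k
  fin_cases k
  · simp [Fin.sum_univ_succ, N, lift]
  · simp [Fin.sum_univ_succ, N, lift]
    ring
  · simp [Fin.sum_univ_succ, N, lift]
    ring
  · simp [Fin.sum_univ_succ, N, lift]
    linear_combination (-12 * f1) * hr
  · simp [Fin.sum_univ_succ, N, lift]
  · simp [Fin.sum_univ_succ, N, lift]
    ring

omit [CharZero K] in
theorem fn_smul (c r f0 f1 f2 : K) : c • fn r f0 f1 f2 = fn r (c * f0) (c * f1) (c * f2) := by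
  ext v
  simp only [Pi.smul_apply, fn, lift, smul_eq_mul]
  generalize cls v = k
  fin_cases k <;> simp <;> ring

omit [CharZero K] in
theorem fn_add (r f0 f1 f2 g0 g1 g2 : K) :
    fn r f0 f1 f2 + fn r g0 g1 g2 = fn r (f0 + g0) (f1 + g1) (f2 + g2) := by
  ext v
  simp only [Pi.add_apply, fn, lift]
  generalize cls v = k
  fin_cases k <;> simp <;> ring

/-- Eigenvector for `4 + 4 r`. -/
def v0 (r : K) : Fin 66 → K := fn r ((5 - 3 * r) / 8) ((2 - r) / 32) (-1 / 32)

/-- Eigenvector for `4 + 4 r + 8 w`, where `w² = 2`. -/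
def vP (r w : K) : Fin 66 → K :=
  fn r ((1 + r) * (3 - 2 * w) / 16) ((r - 2 + 2 * w) / 64) (1 / 64)

theorem v0_eig (r : K) (hr : r ^ 2 = r + 1) :
    X.adjMatrix K *ᵥ v0 r = (4 + 4 * r) • v0 r := by
  unfold v0
  rw [mulVec_fn r _ _ _ hr, fn_smul]
  congr 1
  · field_simp
    linear_combination 384 * hr
  · field_simp
    linear_combination (-64 : K) * hr
  · field_simp
    ring

theorem vP_eig (r w : K) (hr : r ^ 2 = r + 1) (hw : w ^ 2 = 2) :
    X.adjMatrix K *ᵥ vP r w = (4 + 4 * r + 8 * w) • vP r w := by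
  unfold vP
  rw [mulVec_fn r _ _ _ hr, fn_smul]
  congr 1
  · field_simp
    linear_combination (512 * w - 768) * hr + 1024 * (r + 1) * hw
  · field_simp
    linear_combination 128 * hr - 256 * hw
  · field_simp
    ring

theorem sum_eig (r w : K) : v0 r + vP r w + vP r (-w) = fn r 1 0 0 := by
  unfold v0 vP
  rw [fn_add, fn_add]
  congr 1
  · field_simp
    ring
  · field_simp
    ring
  · field_simp
    ring

end eig

/-! ### Fractional revival -/

/-- The revival time `π / (4 √2)`. -/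
noncomputable def τ : ℝ := Real.pi / (4 * √2)

theorem sqrt2_pos : (0 : ℝ) < √2 := Real.sqrt_pos.2 (by norm_num)

theorem τ_pos : 0 < τ := by
  have := sqrt2_pos
  have := Real.pi_pos
  unfold τ
  positivity

theorem eight_tau : 8 * √2 * τ = 2 * Real.pi := by
  have := sqrt2_pos
  unfold τ
  field_simp
  ring

/-- `U(τ)` acts as a scalar on `e_b + r e_a`. -/
theorem U_fn (r : ℝ) (hr : r ^ 2 = r + 1) :
    U X τ *ᵥ (fn (r : ℂ) 1 0 0) = Complex.exp (Complex.I * (τ * (4 + 4 * r))) • fn (r : ℂ) 1 0 0 := by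
  have hrC : (r : ℂ) ^ 2 = r + 1 := by exact_mod_cast congrArg (Complex.ofReal) hr
  have hw : ((√2 : ℝ) : ℂ) ^ 2 = 2 := by
    have : (√2 : ℝ) ^ 2 = 2 := Real.sq_sqrt (by norm_num)
    exact_mod_cast congrArg (Complex.ofReal) this
  have hw' : (-((√2 : ℝ) : ℂ)) ^ 2 = 2 := by rw [neg_sq, hw]
  have h8 : (8 : ℂ) * ((√2 : ℝ) : ℂ) * (τ : ℂ) = 2 * Real.pi := by
    exact_mod_cast congrArg (Complex.ofReal) eight_tau
  have key : ∀ (θ : ℂ) (v : Fin 66 → ℂ), X.adjMatrix ℂ *ᵥ v = θ • v →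
      U X τ *ᵥ v = Complex.exp (Complex.I * τ * θ) • v := by
    intro θ v hv
    unfold U
    apply exp_eigen
    rw [Matrix.smul_mulVec, hv, smul_smul]
  have k0 := key _ _ (v0_eig (r : ℂ) hrC)
  have k1 := key _ _ (vP_eig (r : ℂ) ((√2 : ℝ) : ℂ) hrC hw)
  have k2 := key _ _ (vP_eig (r : ℂ) (-((√2 : ℝ) : ℂ)) hrC hw')
  have e1 : Complex.exp (Complex.I * τ * (4 + 4 * r + 8 * ((√2 : ℝ) : ℂ))) =
      Complex.exp (Complex.I * τ * (4 + 4 * r)) := by
    have : Complex.I * τ * (4 + 4 * r + 8 * ((√2 : ℝ) : ℂ)) =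
        Complex.I * τ * (4 + 4 * r) + 2 * Real.pi * Complex.I := by
      linear_combination Complex.I * h8
    rw [this, Complex.exp_add, Complex.exp_two_pi_mul_I, mul_one]
  have e2 : Complex.exp (Complex.I * τ * (4 + 4 * r + 8 * (-((√2 : ℝ) : ℂ)))) =
      Complex.exp (Complex.I * τ * (4 + 4 * r)) := by
    have : Complex.I * τ * (4 + 4 * r) =
        Complex.I * τ * (4 + 4 * r + 8 * (-((√2 : ℝ) : ℂ))) + 2 * Real.pi * Complex.I := by
      linear_combination Complex.I * h8
    rw [this, Complex.exp_add, Complex.exp_two_pi_mul_I, mul_one]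
  rw [e1] at k1
  rw [e2] at k2
  rw [← sum_eig (r : ℂ) ((√2 : ℝ) : ℂ), Matrix.mulVec_add, Matrix.mulVec_add, k0, k1, k2,
    ← smul_add, ← smul_add]
  congr 2
  ring

open goldenRatio

theorem phi_sq : (φ : ℝ) ^ 2 = φ + 1 := Real.goldenRatio_sq

theorem psi_sq : (ψ : ℝ) ^ 2 = ψ + 1 := Real.goldenConj_sq

theorem phi_sub_psi : (φ : ℝ) - ψ = √5 := Real.goldenRatio_sub_goldenConj

theorem sqrt5_pos : (0 : ℝ) < √5 := Real.sqrt_pos.2 (by norm_num)

theorem fn_one {K : Type} [Field K] (r : K) :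
    fn r 1 0 0 = (Pi.single 0 1 : Fin 66 → K) + r • (Pi.single 1 1 : Fin 66 → K) := by
  ext v
  simp only [fn, Pi.add_apply, Pi.smul_apply, smul_eq_mul, Pi.single_apply]
  have h : ∀ v : Fin 66, (v = 0 ∧ cls v = 0) ∨ (v = 1 ∧ cls v = 1) ∨
      (v ≠ 0 ∧ v ≠ 1 ∧ (cls v = 2 ∨ cls v = 3 ∨ cls v = 4 ∨ cls v = 5)) := by decide
  rcases h v with ⟨h1, h2⟩ | ⟨h1, h2⟩ | ⟨h1, h2, h3⟩
  · rw [h2, h1]; simp [lift]
  · rw [h2, h1]; simp [lift]
  · rw [if_neg h1, if_neg h2]
    rcases h3 with h3 | h3 | h3 | h3 <;> rw [h3] <;> simp [lift]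

theorem e1_eq {p q : ℝ} (hpq : p - q = √5) :
    (e (1 : Fin 66)) = ((√5 : ℝ) : ℂ)⁻¹ • (fn (p : ℂ) 1 0 0 - fn (q : ℂ) 1 0 0) := by
  have h5 : ((√5 : ℝ) : ℂ) ≠ 0 := by exact_mod_cast sqrt5_pos.ne'
  have hd : (p : ℂ) - (q : ℂ) = ((√5 : ℝ) : ℂ) := by
    exact_mod_cast congrArg Complex.ofReal hpq
  rw [fn_one, fn_one, add_sub_add_left_eq_sub, ← sub_smul, hd, smul_smul, inv_mul_cancel₀ h5,
    one_smul]
  rfl

theorem proper_aux (p q : ℝ) (hp2 : p ^ 2 = p + 1) (hq2 : q ^ 2 = q + 1) (hpq : p - q = √5)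
    (hp1 : 1 < p) (hq1 : -1 < q) (hq0 : q < 0) : ProperFR X 1 0 := by
  have h5 : ((√5 : ℝ) : ℂ) ≠ 0 := by exact_mod_cast sqrt5_pos.ne'
  set A : ℂ := Complex.exp (Complex.I * (τ * (4 + 4 * (p : ℂ)))) with hA
  set B : ℂ := Complex.exp (Complex.I * (τ * (4 + 4 * (q : ℂ)))) with hB
  have nA : ‖A‖ = 1 := by
    have : Complex.I * (τ * (4 + 4 * (p : ℂ))) =
        ((τ * (4 + 4 * p) : ℝ) : ℂ) * Complex.I := by push_cast; ring
    rw [hA, this, Complex.norm_exp_ofReal_mul_I]
  have nB : ‖B‖ = 1 := by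
    have : Complex.I * (τ * (4 + 4 * (q : ℂ))) =
        ((τ * (4 + 4 * q) : ℝ) : ℂ) * Complex.I := by push_cast; ring
    rw [hB, this, Complex.norm_exp_ofReal_mul_I]
  refine ⟨τ, ((√5 : ℝ) : ℂ)⁻¹ * (A * p - B * q), ((√5 : ℝ) : ℂ)⁻¹ * (A - B), τ_pos, ?_, ?_, ?_⟩
  · refine mul_ne_zero (inv_ne_zero h5) ?_
    intro h0
    have h1 : A * (p : ℂ) = B * (q : ℂ) := sub_eq_zero.1 h0
    have h2 := congrArg norm h1
    rw [norm_mul, norm_mul, nA, nB, one_mul, one_mul, Complex.norm_real, Complex.norm_real,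
      Real.norm_eq_abs, Real.norm_eq_abs, abs_of_pos (by linarith : 0 < p),
      abs_of_neg hq0] at h2
    linarith
  · refine mul_ne_zero (inv_ne_zero h5) ?_
    intro h0
    have h1 : A = B := sub_eq_zero.1 h0
    rw [hA, hB, Complex.exp_eq_exp_iff_exists_int] at h1
    obtain ⟨n, hn⟩ := h1
    have h2 : (τ * (4 + 4 * p) : ℝ) = τ * (4 + 4 * q) + n * (2 * Real.pi) := by
      have h3 : Complex.I * ((τ * (4 + 4 * p) : ℝ) : ℂ) =
          Complex.I * ((τ * (4 + 4 * q) + n * (2 * Real.pi) : ℝ) : ℂ) := by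
        push_cast
        rw [hn]
        ring
      have h4 := mul_left_cancel₀ Complex.I_ne_zero h3
      exact_mod_cast h4
    have h3 : τ * (4 * √5) = n * (2 * Real.pi) := by
      rw [← hpq]
      linarith
    have h4 : √5 = n * (2 * √2) := by
      have hp := Real.pi_pos
      have h2p := sqrt2_pos
      unfold τ at h3
      field_simp at h3
      linarith
    have h5' : (5 : ℝ) = n ^ 2 * 8 := by
      have h51 : √5 * √5 = (5 : ℝ) := Real.mul_self_sqrt (by norm_num)
      have h22 : √2 * √2 = (2 : ℝ) := Real.mul_self_sqrt (by norm_num)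
      calc (5 : ℝ) = √5 * √5 := h51.symm
        _ = (n * (2 * √2)) * (n * (2 * √2)) := by rw [← h4]
        _ = n ^ 2 * 4 * (√2 * √2) := by ring
        _ = n ^ 2 * 8 := by rw [h22]; ring
    have h6 : (5 : ℤ) = n ^ 2 * 8 := by exact_mod_cast h5'
    omega
  · have hU1 := U_fn p hp2
    have hU2 := U_fn q hq2
    rw [e1_eq hpq, Matrix.mulVec_smul, Matrix.mulVec_sub, hU1, hU2, ← hA, ← hB, ← e1_eq hpq]
    rw [fn_one, fn_one]
    unfold e
    ext v
    simp only [Pi.smul_apply, Pi.sub_apply, Pi.add_apply, smul_eq_mul]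
    ring

/-- The vertices `a = 1` and `b = 0` have proper fractional revival. -/
theorem proper : ProperFR X 1 0 :=
  proper_aux φ ψ phi_sq psi_sq phi_sub_psi Real.one_lt_goldenRatio Real.neg_one_lt_goldenConj
    Real.goldenConj_neg

end Pool.Agent.FR106
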