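import Pool.Agent.FR106.Graph66

/-!
# Spectral projections of the graph with 66 vertices
-/

namespace Pool.Agent.FR106

open Matrix

section
variable {V : Type} [Fintype V] [DecidableEq V] (X : SimpleGraph V) [DecidableRel X.Adj]

theorem mem_eigenspace {θ : ℝ} {v : V → ℝ} :
    WithLp.toLp 2 v ∈ Module.End.eigenspace (Matrix.toEuclideanLin (X.adjMatrix ℝ)) θ ↔
      X.adjMatrix ℝ *ᵥ v = θ • v := by
  rw [Module.End.mem_eigenspace_iff, Matrix.toEuclideanLin_apply_piLp_toLp, ← WithLp.toLp_smul]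
  exact (WithLp.toLp_injective 2).eq_iff

theorem mem_orth {θ μ : ℝ} (hne : μ ≠ θ) {w : V → ℝ} (hw : X.adjMatrix ℝ *ᵥ w = μ • w) :
    WithLp.toLp 2 w ∈
      (Module.End.eigenspace (Matrix.toEuclideanLin (X.adjMatrix ℝ)) θ)ᗮ := by
  have hH : (X.adjMatrix ℝ).IsHermitian := by
    unfold Matrix.IsHermitian
    rw [Matrix.conjTranspose_eq_transpose_of_trivial, SimpleGraph.transpose_adjMatrix]
  have hS := Matrix.isSymmetric_toEuclideanLin_iff.2 hH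
  rw [Submodule.mem_orthogonal]
  intro u hu
  rw [Module.End.mem_eigenspace_iff] at hu
  have hw' : Matrix.toEuclideanLin (X.adjMatrix ℝ) (WithLp.toLp 2 w) = μ • WithLp.toLp 2 w := by
    rw [Matrix.toEuclideanLin_apply_piLp_toLp, hw, WithLp.toLp_smul]
  have h1 := hS u (WithLp.toLp 2 w)
  rw [hu, hw', inner_smul_left, inner_smul_right] at h1
  simp only [conj_trivial] at h1
  have h2 : (θ - μ) * inner ℝ u (WithLp.toLp 2 w) = 0 := by linarith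
  rcases mul_eq_zero.1 h2 with h | h
  · exact absurd (sub_eq_zero.1 h).symm hne
  · exact h

/-- Computing `E_θ` on a sum of an eigenvector for `θ` and five eigenvectors for other
eigenvalues. -/
theorem E_of_sum {θ m1 m2 m3 m4 m5 : ℝ} {v w1 w2 w3 w4 w5 : V → ℝ}
    (hv : X.adjMatrix ℝ *ᵥ v = θ • v) (h1 : X.adjMatrix ℝ *ᵥ w1 = m1 • w1)
    (h2 : X.adjMatrix ℝ *ᵥ w2 = m2 • w2) (h3 : X.adjMatrix ℝ *ᵥ w3 = m3 • w3)
    (h4 : X.adjMatrix ℝ *ᵥ w4 = m4 • w4) (h5 : X.adjMatrix ℝ *ᵥ w5 = m5 • w5)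
    (n1 : m1 ≠ θ) (n2 : m2 ≠ θ) (n3 : m3 ≠ θ) (n4 : m4 ≠ θ) (n5 : m5 ≠ θ) (x : V → ℝ)
    (hx : x = v + (w1 + w2 + w3 + w4 + w5)) :
    E X θ (WithLp.toLp 2 x) = WithLp.toLp 2 v := by
  unfold E
  apply Submodule.eq_starProjection_of_mem_orthogonal' (z := WithLp.toLp 2 w1 + WithLp.toLp 2 w2 +
    WithLp.toLp 2 w3 + WithLp.toLp 2 w4 + WithLp.toLp 2 w5)
  · exact (mem_eigenspace X).2 hv
  · exact Submodule.add_mem _ (Submodule.add_mem _ (Submodule.add_mem _ (Submodule.add_mem _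
      (mem_orth X n1 h1) (mem_orth X n2 h2)) (mem_orth X n3 h3)) (mem_orth X n4 h4))
      (mem_orth X n5 h5)
  · rw [hx]
    simp only [WithLp.toLp_add]

end

/-! ### The six eigenvalues -/

open goldenRatio

theorem sqrt2_bounds : (1.414 : ℝ) < √2 ∧ √2 < 1.415 := by
  constructor
  · exact Real.lt_sqrt_of_sq_lt (by norm_num)
  · rw [Real.sqrt_lt' (by norm_num)]; norm_num

theorem sqrt5_bounds : (2.236 : ℝ) < √5 ∧ √5 < 2.237 := by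
  constructor
  · exact Real.lt_sqrt_of_sq_lt (by norm_num)
  · rw [Real.sqrt_lt' (by norm_num)]; norm_num

theorem phi_eq : (φ : ℝ) = (1 + √5) / 2 := rfl

theorem psi_eq : (ψ : ℝ) = (1 - √5) / 2 := rfl

theorem w_sq : (√2 : ℝ) ^ 2 = 2 := Real.sq_sqrt (by norm_num)

theorem w_sq' : (-√2 : ℝ) ^ 2 = 2 := by rw [neg_sq, w_sq]

/-- `e_1` is a combination of the six eigenvectors. -/
theorem single_one_eq : (Pi.single 1 1 : Fin 66 → ℝ) =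
    (√5)⁻¹ • v0 φ + (√5)⁻¹ • vP φ (√2) + (√5)⁻¹ • vP φ (-√2) +
      (-(√5)⁻¹) • v0 ψ + (-(√5)⁻¹) • vP ψ (√2) + (-(√5)⁻¹) • vP ψ (-√2) := by
  have h1 := sum_eig (φ : ℝ) (√2)
  have h2 := sum_eig (ψ : ℝ) (√2)
  have h5 := sqrt5_pos.ne'
  have h3 : (Pi.single 1 1 : Fin 66 → ℝ) = (√5)⁻¹ • (fn (φ : ℝ) 1 0 0 - fn (ψ : ℝ) 1 0 0) := by
    rw [fn_one, fn_one, add_sub_add_left_eq_sub, ← sub_smul, phi_sub_psi, smul_smul,
      inv_mul_cancel₀ h5, one_smul]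
  rw [h3, ← h1, ← h2]
  ext v
  simp only [Pi.smul_apply, Pi.sub_apply, Pi.add_apply, smul_eq_mul]
  ring

theorem smul_eig {V : Type} [Fintype V] (A : Matrix V V ℝ) (v : V → ℝ) (θ c : ℝ)
    (h : A *ᵥ v = θ • v) : A *ᵥ (c • v) = θ • (c • v) := by
  rw [Matrix.mulVec_smul, h, smul_comm]

/-- `E_θ e_1` for `θ = 4 + 4 φ`. -/
theorem E_phi : E X (4 + 4 * φ) (WithLp.toLp 2 (Pi.single 1 1)) =
    WithLp.toLp 2 ((√5)⁻¹ • v0 φ) := by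
  obtain ⟨a1, a2⟩ := sqrt2_bounds
  obtain ⟨b1, b2⟩ := sqrt5_bounds
  apply E_of_sum X (smul_eig _ _ _ (√5)⁻¹ (v0_eig φ phi_sq))
    (smul_eig _ _ _ (√5)⁻¹ (vP_eig φ _ phi_sq w_sq))
    (smul_eig _ _ _ (√5)⁻¹ (vP_eig φ _ phi_sq w_sq'))
    (smul_eig _ _ _ (-(√5)⁻¹) (v0_eig ψ psi_sq))
    (smul_eig _ _ _ (-(√5)⁻¹) (vP_eig ψ _ psi_sq w_sq))
    (smul_eig _ _ _ (-(√5)⁻¹) (vP_eig ψ _ psi_sq w_sq'))
  · intro h; linarith
  · intro h; linarith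
  · rw [phi_eq, psi_eq]; intro h; linarith
  · rw [phi_eq, psi_eq]; intro h; linarith
  · rw [phi_eq, psi_eq]; intro h; linarith
  · rw [single_one_eq]
    abel

/-- `E_θ e_1` for `θ = 4 + 4 ψ`. -/
theorem E_psi : E X (4 + 4 * ψ) (WithLp.toLp 2 (Pi.single 1 1)) =
    WithLp.toLp 2 ((-(√5)⁻¹) • v0 ψ) := by
  obtain ⟨a1, a2⟩ := sqrt2_bounds
  obtain ⟨b1, b2⟩ := sqrt5_bounds
  apply E_of_sum X (smul_eig _ _ _ (-(√5)⁻¹) (v0_eig ψ psi_sq))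
    (smul_eig _ _ _ (√5)⁻¹ (v0_eig φ phi_sq))
    (smul_eig _ _ _ (√5)⁻¹ (vP_eig φ _ phi_sq w_sq))
    (smul_eig _ _ _ (√5)⁻¹ (vP_eig φ _ phi_sq w_sq'))
    (smul_eig _ _ _ (-(√5)⁻¹) (vP_eig ψ _ psi_sq w_sq))
    (smul_eig _ _ _ (-(√5)⁻¹) (vP_eig ψ _ psi_sq w_sq'))
  · rw [phi_eq, psi_eq]; intro h; linarith
  · rw [phi_eq, psi_eq]; intro h; linarith
  · rw [phi_eq, psi_eq]; intro h; linarith
  · intro h; linarith
  · intro h; linarith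
  · rw [single_one_eq]
    abel

/-- `E_θ e_1` for `θ = 4 + 4 φ + 8 √2`. -/
theorem E_phi_sqrt2 : E X (4 + 4 * φ + 8 * √2) (WithLp.toLp 2 (Pi.single 1 1)) =
    WithLp.toLp 2 ((√5)⁻¹ • vP φ (√2)) := by
  obtain ⟨a1, a2⟩ := sqrt2_bounds
  obtain ⟨b1, b2⟩ := sqrt5_bounds
  apply E_of_sum X (smul_eig _ _ _ (√5)⁻¹ (vP_eig φ _ phi_sq w_sq))
    (smul_eig _ _ _ (√5)⁻¹ (v0_eig φ phi_sq))
    (smul_eig _ _ _ (√5)⁻¹ (vP_eig φ _ phi_sq w_sq'))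
    (smul_eig _ _ _ (-(√5)⁻¹) (v0_eig ψ psi_sq))
    (smul_eig _ _ _ (-(√5)⁻¹) (vP_eig ψ _ psi_sq w_sq))
    (smul_eig _ _ _ (-(√5)⁻¹) (vP_eig ψ _ psi_sq w_sq'))
  · intro h; linarith
  · intro h; linarith
  · rw [phi_eq, psi_eq]; intro h; linarith
  · rw [phi_eq, psi_eq]; intro h; linarith
  · rw [phi_eq, psi_eq]; intro h; linarith
  · rw [single_one_eq]
    abel

theorem single_eq (v : Fin 66) :
    (EuclideanSpace.single v (1 : ℝ)) = WithLp.toLp 2 (Pi.single v 1) := rfl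

theorem entry_phi : 0 < entry X (4 + 4 * φ) 0 1 := by
  obtain ⟨b1, b2⟩ := sqrt5_bounds
  unfold entry
  rw [single_eq, E_phi]
  show 0 < (√5)⁻¹ * v0 φ 0
  have : v0 (φ : ℝ) 0 = (5 - 3 * φ) / 8 := rfl
  rw [this, phi_eq]
  have h5 := sqrt5_pos
  apply mul_pos (inv_pos.2 h5)
  linarith

theorem entry_psi : entry X (4 + 4 * ψ) 0 1 < 0 := by
  obtain ⟨b1, b2⟩ := sqrt5_bounds
  unfold entry
  rw [single_eq, E_psi]
  show (-(√5)⁻¹) * v0 ψ 0 < 0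
  have : v0 (ψ : ℝ) 0 = (5 - 3 * ψ) / 8 := rfl
  rw [this, psi_eq]
  have h5 := sqrt5_pos
  rw [neg_mul, neg_lt_zero]
  apply mul_pos (inv_pos.2 h5)
  linarith

theorem E_phi_sqrt2_ne : E X (4 + 4 * φ + 8 * √2) (EuclideanSpace.single 1 1) ≠ 0 := by
  obtain ⟨a1, a2⟩ := sqrt2_bounds
  obtain ⟨b1, b2⟩ := sqrt5_bounds
  rw [single_eq, E_phi_sqrt2]
  intro h
  have h0 : (√5)⁻¹ * vP (φ : ℝ) (√2) 0 = 0 := congrArg (fun f : EuclideanSpace ℝ (Fin 66) => f 0) h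
  have : vP (φ : ℝ) (√2) 0 = (1 + φ) * (3 - 2 * √2) / 16 := rfl
  rw [this, phi_eq] at h0
  have h5 := sqrt5_pos
  have : 0 < (√5)⁻¹ * ((1 + (1 + √5) / 2) * (3 - 2 * √2) / 16) := by
    apply mul_pos (inv_pos.2 h5)
    have h1 : 0 < 1 + (1 + √5) / 2 := by linarith
    have h2 : 0 < 3 - 2 * √2 := by linarith
    positivity
  linarith

end Pool.Agent.FR106
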